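import Pool.Agent.V11310.CL.Main

set_option autoImplicit false

/-!
# Reached classes: general points
-/

namespace Pool.Agent.V11310.CL

open MvPolynomial
open Pool.Agent.Y536.SH (Standard)

theorem reached_of_base {N0 d n : ℕ} {w : Fin n → ℕ} (h : Base N0 d w) : Reached N0 d w := by
  rcases le_total ((d + 2).choose 2) (∑ i, (w i + 1).choose 2) with h1 | h1
  · exact Or.inl (Closure.base_none d n w h h1)
  · exact Or.inr (Closure.base_indep d n w h h1)

/-- The class is reached, or finitely many reflections carry it to a standard class which is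
reached. -/
def Covered (N0 d : ℕ) {n : ℕ} (w : Fin n → ℕ) : Prop :=
  Reached N0 d w ∨
    ∃ (d' : ℕ) (w' : Fin n → ℕ), Carries d w d' w' ∧ Standard d' w' ∧ Reached N0 d' w'

theorem covered_exp {N0 : ℕ} (hN0 : Pool.Agent.Y939.NC.RegExp N0) {n d : ℕ} (hn : 4 ≤ n)
    {w : Fin n → ℕ} (h : Covered N0 d w) {K : Type} [Field K] [CharZero K]
    {P : Fin n → Fin 2 → K}
    (hP : AlgebraicIndependent ℚ (fun ij : Fin n × Fin 2 => P ij.1 ij.2)) :
    Pool.Agent.H932R3.ExpDim K w P d := by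
  rcases h with h | ⟨d', w', hc, hs, hG⟩
  · exact reached_exp hN0 h hP
  · exact Pool.Agent.TH442.NF.up_enef hP hc (Pool.Agent.TH442.NF.enef_of_std hn P hs)
      (reached_exp hN0 hG hP)

/-- For general points. -/
theorem covered_open {N0 : ℕ} (hN0 : Pool.Agent.Y939.NC.RegExp N0) {n d : ℕ} (hn : 4 ≤ n)
    {w : Fin n → ℕ} (h : Covered N0 d w) :
    ∃ F : MvPolynomial (Fin n × Fin 2) ℂ, F ≠ 0 ∧ ∀ P : Fin n → Fin 2 → ℂ,
      eval (fun ij : Fin n × Fin 2 => P ij.1 ij.2) F ≠ 0 →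
        Pool.Agent.H932R3.ExpDim ℂ w P d := by
  obtain ⟨F, hF, hF'⟩ := Pool.Agent.TH442.NF.to_open (d := d) (w := w)
    fun {_ _ _ P} hP => covered_exp hN0 hn h hP
  refine ⟨F.map (algebraMap ℚ ℂ), Pool.Agent.H932R3.map_ne_zero_of hF, fun P hP => ?_⟩
  rw [MvPolynomial.eval_map] at hP
  exact hF' (L := ℂ) P hP

end Pool.Agent.V11310.CL
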