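import Mathlib
import Pool.Agent.V11310.CL.Open
import Pool.Agent.Y939.NC.Std
import Pool.Agent.TH167.SH.Fam
import Pool.Agent.TH167.SH.Conv

set_option autoImplicit false

/-!
# Multiples of curves of nonpositive self-intersection
-/

namespace Pool.Agent.V11310.CL

open MvPolynomial Pool.Agent.TH167 Pool.Agent.TH167.SHDefs Pool.Agent.Y939.NC

/-- The class of a multiple of an effective irreducible curve with `C ^ 2 ≤ 0 < K C` is special. -/
theorem not_exp {s : ℕ} {P : Fin s → Fin 2 → ℂ} {d : ℕ} {w : Fin s → ℕ}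
    {C : MvPolynomial (Fin 3) ℂ} (h0 : C ≠ 0) (hC : C.IsHomogeneous d)
    (hv : ∀ j, W609.CR.Van (W609.CR.aff (P j)) (w j) C) (hip : SH.ip d w d w ≤ 0)
    (hkk : SH.kk d w < 0) {t : ℕ} (ht : 1 ≤ t) :
    ¬ Pool.Agent.H932R3.ExpDim ℂ (fun i => t * w i) P (t * d) := by
  intro h6
  rw [Pool.Agent.TH442.NF.expDim_iff] at h6
  have h7 := SH.two_chi (t * d) (fun i => t * w i)
  have hmem : C ^ t ∈ W609.CR.VS (fun j => W609.CR.aff (P j)) (fun i => t * w i) (t * d) :=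
    (SH.mem_VS _ _ _ _).2 ⟨by rw [mul_comm]; exact hC.pow t, fun j => SH.van_pow (hv j) t⟩
  have hfin := W609.CR.vs_fin (fun j => W609.CR.aff (P j)) (fun i => t * w i) (t * d)
  have hpos : 0 < Module.finrank ℂ
      ↥(W609.CR.VS (fun j => W609.CR.aff (P j)) (fun i => t * w i) (t * d)) :=
    Module.finrank_pos_iff.2 ⟨⟨C ^ t, hmem⟩, 0, fun h7 => pow_ne_zero t h0 (congrArg Subtype.val h7)⟩
  have e1 : SH.ip (t * d) (fun i => t * w i) (t * d) (fun i => t * w i) = (t : ℤ) ^ 2 * SH.ip d w d w := by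
    unfold SH.ip
    push_cast
    rw [mul_sub, Finset.mul_sum]
    congr 1
    · ring
    · exact Finset.sum_congr rfl fun i _ => by ring
  have e2 : SH.kk (t * d) (fun i => t * w i) = (t : ℤ) * SH.kk d w := by
    unfold SH.kk
    push_cast
    rw [mul_sub, Finset.mul_sum]
    congr 1
    ring
  have ht' : (1 : ℤ) ≤ t := by exact_mod_cast ht
  have h8 : SH.chi (t * d) (fun i => t * w i) ≤ 0 := by
    rw [e1, e2] at h7
    nlinarith
  rw [max_eq_left h8] at h6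
  omega

/-- Very general points: no multiple of the class of an irreducible curve with `C ^ 2 ≤ 0 < K C` is
covered. -/
theorem multiples {N0 : ℕ} (hN0 : RegExp N0) {s : ℕ} (hs : 4 ≤ s) {P : Fin s → Fin 2 → ℂ}
    (hP : AlgebraicIndependent ℚ (fun ij : Fin s × Fin 2 => P ij.1 ij.2)) {d : ℕ}
    {w : Fin s → ℕ} {C : MvPolynomial (Fin 3) ℂ} (hC : Curve P C d w)
    (h0 : inter d w d w ≤ 0) (hK : 0 < interK d w) {t : ℕ} (ht : 1 ≤ t) :
    ¬ Covered N0 (t * d) (fun i => t * w i) := by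
  intro hG
  obtain ⟨h1, h2, h3⟩ := SH.curve_iff.1 hC
  rw [SH.inter_eq] at h0
  rw [SH.interK_eq] at hK
  exact not_exp h1.ne_zero h2 (fun j => (h3 j).1) h0 (by omega) ht (covered_exp hN0 hs hG hP)

/-- An irreducible curve with `C ^ 2 < 0` which is not a `(-1)`-curve has `K C > 0`. -/
theorem canonical_pos {s : ℕ} (hs : 4 ≤ s) {P : Fin s → Fin 2 → ℂ}
    (hP : AlgebraicIndependent ℚ (fun ij : Fin s × Fin 2 => P ij.1 ij.2)) {d : ℕ}
    {w : Fin s → ℕ} {C : MvPolynomial (Fin 3) ℂ} (hC : Curve P C d w)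
    (hneg : inter d w d w < 0) (hne : ¬ MinusOne P C d w) : 0 < interK d w := by
  obtain ⟨r, rfl⟩ : ∃ r, s = r + 4 := ⟨s - 4, by omega⟩
  obtain ⟨h1, h2, h3⟩ := SH.curve_iff.1 hC
  have hne' : ¬ (SH.ip d w d w = -1 ∧ SH.kk d w = 1) := fun h0 =>
    hne ⟨hC, by rw [SH.inter_eq, h0.1], by rw [SH.interK_eq, h0.2]⟩
  obtain ⟨M, hM⟩ : ∃ M, ∀ j, w j ≤ M := ⟨∑ j, w j, fun j =>
    Finset.single_le_sum (fun _ _ => Nat.zero_le _) (Finset.mem_univ j)⟩
  have hw : SH.Few M d w := by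
    left
    rw [Finset.filter_false_of_mem fun j _ => not_lt.2 (hM j)]
    simp
  obtain ⟨P1, d1, w1, C1, a1, a2, a3, a4, a5, a6, a7, a8⟩ :=
    Pool.Agent.Y939.NC.std_irr d P hP w hw C h1 h2 h3 hne'
  obtain ⟨c1, c2, c3⟩ := SH.quad_inv a5
  simp only at c1 c2 c3
  rw [SH.inter_eq] at hneg
  have hwd : ∀ j, w1 j ≤ d1 := fun j => SH.van_le a2.ne_zero a3 (a4 j).1
  have hK : SH.kk d1 w1 < 0 := by
    by_contra hcon
    push Not at hcon
    have h4 : 0 ≤ SH.kk d1 w1 := hcon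
    rw [SH.kk_cast] at h4
    have h5 := SH.red_ip a6 hwd (by omega)
    omega
  rw [SH.interK_eq, ← c2]
  omega

end Pool.Agent.V11310.CL
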