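import Mathlib
import Pool.Agent.V11310.CL.Open
import Pool.Agent.Y536.SH.Full
import Pool.Agent.H248R5.Gen

set_option autoImplicit false

/-!
# Integral curves at general points
-/

namespace Pool.Agent.V11310.CL

open MvPolynomial Pool.Agent.W609 Pool.Agent.W609.CR Pool.Agent.TH167 Pool.Agent.TH167.SH
  Pool.Agent.H932R3 Pool.Agent.TH442.NF

/-- An integral curve whose class has not the virtual dimension: finitely many quadratic
transformations carry the class to a special standard class of the same dimension outside of the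
list. -/
theorem prime_core {r : ℕ} {Q : ℕ → (Fin (r + 4) → ℕ) → Prop}
    {K : Type} [Field K] [CharZero K] {P : Fin (r + 4) → Fin 2 → K} (hinj : Function.Injective P)
    {d : ℕ} {w : Fin (r + 4) → ℕ} {C : MvPolynomial (Fin 3) K} (hC : SHDefs.Curve P C d w)
    (hh : SH.Special P d w →
        MSpecial P d w ∨ ∃ (d' : ℕ) (w' : Fin (r + 4) → ℕ) (k : ℕ)
          (C : Fin k → MvPolynomial (Fin 3) K) (e : Fin k → ℕ) (u : Fin k → Fin (r + 4) → ℕ)
          (N : Fin k → ℕ) (d1 : ℕ) (w1 : Fin (r + 4) → ℕ),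
          Dcp P d w d' w' C e u N ∧ Relation.ReflTransGen Quad (d', w') (d1, w1) ∧
          Reduced d1 w1 ∧ SH.Special P d1 w1 ∧
          Module.finrank K ↥(VS (fun j => aff (P j)) w1 d1) =
            Module.finrank K ↥(VS (fun j => aff (P j)) w d) ∧ ¬ Q d1 w1)
    (hne : SHDefs.dimL P d w ≠ SHDefs.virtdim d w) :
    ∃ (d1 : ℕ) (w1 : Fin (r + 4) → ℕ),
      Relation.ReflTransGen SHDefs.Quadratic (d, w) (d1, w1) ∧ Reduced d1 w1 ∧
      SHDefs.Special P d1 w1 ∧ SHDefs.dimL P d1 w1 = SHDefs.dimL P d w ∧ ¬ Q d1 w1 := by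
  classical
  obtain ⟨hCi, hCh, hCo⟩ := curve_iff.1 hC
  have hmem : C ∈ VS (fun j => aff (P j)) w d := (mem_VS _ _ _ _).2 ⟨hCh, fun j => (hCo j).1⟩
  have hfin := vs_fin (fun j => aff (P j)) w d
  have hpos : 0 < Module.finrank K ↥(VS (fun j => aff (P j)) w d) :=
    Module.finrank_pos_iff.2 ⟨⟨C, hmem⟩, 0, fun h7 => hCi.ne_zero (congrArg Subtype.val h7)⟩
  have hsp : SH.Special P d w := by
    rw [special_iff]
    refine ⟨hpos, ?_⟩
    rw [dimL_eq, virtdim_eq] at hne
    have := chi_le_dim P d w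
    omega
  rcases hh hsp with h | ⟨d', w', k, C', e, u, N, d1, w1, hD, h2, h3, h4, h5, h6⟩
  · exfalso
    obtain ⟨G, e, u, hG, h2⟩ := mspecial_curve ((mspecial_conv P d w).2 h)
    have h3 := curve_sq_dvd hinj hG h2 (by rw [sys_eq]; exact hmem)
    have h5 := hCi.squarefree G (by rw [← pow_two]; exact h3)
    exact hG.curve.irreducible.not_isUnit h5
  · rcases Nat.eq_zero_or_pos k with hk | hk
    · subst hk
      have e1 := hD.deg
      have e2 := hD.mul
      simp only [Finset.univ_eq_empty, Finset.sum_empty, add_zero] at e1 e2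
      have e3 : w = w' := funext e2
      subst e1 e3
      refine ⟨d1, w1, chain_conv h2, h3, (special_conv P d1 w1).2 h4, ?_, h6⟩
      rw [dimL_eq, dimL_eq, h5]
    · exfalso
      obtain ⟨a⟩ : Nonempty (Fin k) := ⟨⟨0, hk⟩⟩
      have h7 := hD.neg a
      have h8 := hD.pos a
      have h9 := exc_pow_dvd hinj (hD.exc a) 1 d w (by rw [h7]; omega) C hmem
      rw [pow_one] at h9
      obtain ⟨H, hH⟩ := h9
      have hu : IsUnit H := by
        rcases hCi.isUnit_or_isUnit hH with h | h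
        · exact absurd h (hD.exc a).irr.not_isUnit
        · exact h
      obtain ⟨c, hc, rfl⟩ : ∃ c : K, c ≠ 0 ∧ H = MvPolynomial.C c := by
        have h10 := MvPolynomial.isUnit_iff_eq_C_of_isReduced.1 hu
        obtain ⟨c, hc, rfl⟩ := h10
        exact ⟨c, hc.ne_zero, rfl⟩
      have hde : d = e a := by
        have t1 : C.totalDegree = d := hCh.totalDegree hCi.ne_zero
        have t2 : (C' a).totalDegree = e a := (hD.exc a).hom.totalDegree (hD.exc a).irr.ne_zero
        rw [hH, MvPolynomial.totalDegree_mul_of_isDomain (hD.exc a).irr.ne_zero hu.ne_zero,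
          MvPolynomial.totalDegree_C, t2] at t1
        omega
      have hwu : w = u a := by
        funext j
        have t1 : Ord (aff (P j)) (u a j + 0) (C' a * MvPolynomial.C c) := by
          refine ord_mul ((hD.exc a).ord j) ⟨van_zero _ _, fun h => ?_⟩
          rw [zero_add, van_one, MvPolynomial.eval_C] at h
          exact hc h
        rw [add_zero, ← hH] at t1
        exact ord_unique (hCo j) t1
      subst hde hwu
      have h10 := Pool.Agent.Y536.SH.exc_dim hinj (hD.exc a)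
      have h11 := two_chi (e a) (u a)
      rw [self_iff.1 (hD.exc a).self, can_iff.1 (hD.exc a).can] at h11
      rw [special_iff] at hsp
      omega

/-- For general points. -/
theorem prime_general {N0 : ℕ} (hN0 : Pool.Agent.Y939.NC.RegExp N0) {n : ℕ} (hn : 4 ≤ n) (d : ℕ)
    (w : Fin n → ℕ) :
    ∃ F : MvPolynomial (Fin n × Fin 2) ℂ, F ≠ 0 ∧ ∀ P : Fin n → Fin 2 → ℂ,
      eval (fun ij : Fin n × Fin 2 => P ij.1 ij.2) F ≠ 0 →
      ∀ C : MvPolynomial (Fin 3) ℂ, SHDefs.Curve P C d w → SHDefs.dimL P d w ≠ SHDefs.virtdim d w →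
        ∃ (d1 : ℕ) (w1 : Fin n → ℕ),
          Relation.ReflTransGen SHDefs.Quadratic (d, w) (d1, w1) ∧
          Pool.Agent.Y536.SH.Standard d1 w1 ∧ SHDefs.Special P d1 w1 ∧
          SHDefs.dimL P d1 w1 = SHDefs.dimL P d w ∧ ¬ Reached N0 d1 w1 := by
  obtain ⟨r, rfl⟩ : ∃ r, n = r + 4 := ⟨n - 4, by omega⟩
  obtain ⟨F, hF, hF'⟩ := Pool.Agent.Y536.SH.hh_full (Q := fun d' w' => Reached N0 d' w')
    (fun hP d1 w1 hr hG => reached_exp hN0 hG hP) d w
  refine ⟨F.map (algebraMap ℚ ℂ) * Pool.Agent.H248R5.disc ℂ (r + 4),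
    mul_ne_zero (Pool.Agent.TH167.SH.map_ne hF) (Pool.Agent.H248R5.disc_ne ℂ (r + 4)),
    fun P hP C hC hne => ?_⟩
  rw [map_mul] at hP
  have hP2 := left_ne_zero_of_mul hP
  have hinj := Pool.Agent.H248R5.inj_of_disc (right_ne_zero_of_mul hP)
  rw [Pool.Agent.TH167.SH.evP_eval] at hP2
  exact prime_core (Q := fun d' w' => Reached N0 d' w') hinj hC (fun hsp => hF' ℂ P hP2 hsp) hne

end Pool.Agent.V11310.CL
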