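import Pool.Agent.V11310.CL.Open

set_option autoImplicit false

/-!
# Clusters: a two-level family in the closure
-/

namespace Pool.Agent.V11310.CL

open Finset

/-- Replacing every point by a cluster. -/
theorem clusters {N0 d k : ℕ} {s : Side} (μ : Fin k → ℕ) (M : Fin k → Multiset ℕ)
    (h : Closure N0 s d (∑ j, {μ j})) (hμ : ∀ j, 1 ≤ μ j)
    (hM : ∀ j, Closure N0 s (μ j - 1) (M j)) : Closure N0 s d (∑ j, M j) := by
  classical
  have key : ∀ T : Finset (Fin k), Closure N0 s d (∑ j ∈ T, M j + ∑ j ∈ Tᶜ, {μ j}) := by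
    intro T
    induction T using Finset.induction_on with
    | empty => simpa using h
    | insert a T ha ih =>
      have e1 : Tᶜ = insert a (insert a T)ᶜ := by
        ext x
        by_cases hx : x = a
        · subst hx
          simp [ha]
        · simp [hx]
      have e2 : a ∉ (insert a T)ᶜ := by simp
      rw [e1, Finset.sum_insert e2] at ih
      rw [Finset.sum_insert ha]
      have e3 : ∑ j ∈ T, M j + ({μ a} + ∑ j ∈ (insert a T)ᶜ, ({μ j} : Multiset ℕ)) =
          μ a ::ₘ (∑ j ∈ T, M j + ∑ j ∈ (insert a T)ᶜ, {μ j}) := by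
        rw [← Multiset.singleton_add, add_left_comm]
      rw [e3] at ih
      rw [add_assoc]
      cases s with
      | none => exact Closure.collision_none d (μ a) _ _ ih (hM a)
      | indep => exact Closure.collision_indep d (μ a) _ _ (hμ a) ih (hM a)
  have h1 := key univ
  simpa using h1

/-- Numbers `k` of points and multiplicities `μ` such that the constant vectors are regular. -/
def Ok (k μ : ℕ) : Prop :=
  37 ≤ k ∨ k = 21 ∨ (10 ≤ k ∧ (IsSquare k ∨ ((μ + 1 : ℕ) : ℝ) ≤ k - 6 * √(k : ℝ) + 11))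

theorem regularAt_const {N0 d k μ : ℕ} (hμ : 1 ≤ μ) (h : Ok k μ) :
    Pool.Agent.V11263.SH.RegularAt N0 d (fun _ : Fin k => μ) := by
  rcases h with h | h | ⟨h, h' | h'⟩
  · exact Or.inl (Or.inl ⟨Or.inl h, μ, hμ, fun _ => rfl⟩)
  · exact Or.inl (Or.inl ⟨Or.inr h, μ, hμ, fun _ => rfl⟩)
  · exact Or.inr (Or.inl ⟨h, μ, hμ, fun _ => Or.inl rfl, Or.inr (Or.inl h')⟩)
  · exact Or.inr (Or.inl ⟨h, μ, hμ, fun _ => Or.inl rfl, Or.inl h'⟩)

theorem two_choose (n : ℕ) : 2 * (n + 1).choose 2 = n * (n + 1) := by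
  rw [Nat.choose_two_right, Nat.add_sub_cancel, mul_comm (n + 1) n,
    Nat.mul_div_cancel' (Nat.even_mul_succ_self n).two_dvd]

theorem sum_single {s : ℕ} (S : Finset (Fin s)) (m : Fin s → ℕ) :
    ∑ i ∈ S, ({m i} : Multiset ℕ) = S.val.map m := by
  classical
  induction S using Finset.induction_on with
  | empty => rfl
  | insert a S ha ih =>
    rw [Finset.sum_insert ha, ih, Finset.insert_val_of_notMem ha, Multiset.map_cons,
      Multiset.singleton_add]

/-- A set of points as a family. -/
theorem val_map_family {s : ℕ} (S : Finset (Fin s)) (m : Fin s → ℕ) :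
    ∃ e : Fin S.card ↪ Fin s, (∀ j, e j ∈ S) ∧
      (univ : Finset (Fin S.card)).val.map (fun j => m (e j)) = S.val.map m := by
  refine ⟨(S.orderEmbOfFin rfl).toEmbedding, fun j => S.orderEmbOfFin_mem rfl j, ?_⟩
  have h1 : univ.map (S.orderEmbOfFin rfl).toEmbedding = S := by
    ext x
    rw [Finset.mem_map]
    constructor
    · rintro ⟨j, -, rfl⟩
      exact S.orderEmbOfFin_mem rfl j
    · intro hx
      have h2 : x ∈ Set.range (S.orderEmbOfFin rfl) := by
        rw [Finset.range_orderEmbOfFin]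
        exact hx
      obtain ⟨j, hj⟩ := h2
      exact ⟨j, mem_univ j, hj⟩
  have h3 := congrArg Finset.val h1
  rw [Finset.map_val] at h3
  conv_rhs => rw [← h3]
  rw [Multiset.map_map]
  rfl

/-- A cluster, no curves. -/
theorem cluster_none {N0 s : ℕ} (m : Fin s → ℕ) (S : Finset (Fin s)) {a d : ℕ} (ha : 1 ≤ a)
    (hok : S.card = 1 ∨ Ok S.card a) (hm : ∀ i ∈ S, a ≤ m i)
    (h : (d + 1) * (d + 2) ≤ S.card * (a * (a + 1))) :
    Closure N0 Side.none d (S.val.map m) := by
  rcases hok with hok | hok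
  · obtain ⟨i, rfl⟩ := Finset.card_eq_one.1 hok
    have h1 := hm i (by simp)
    have h2 : Closure N0 Side.none d {m i} := by
      refine Closure.single_none d (m i) ?_
      rw [Finset.card_singleton] at h
      by_contra hcon
      have h3 : a ≤ d := by omega
      nlinarith
    simpa using h2
  · obtain ⟨e, he, hmap⟩ := val_map_family S m
    rw [← hmap]
    have hc : (d + 2).choose 2 ≤ ∑ _j : Fin S.card, (a + 1).choose 2 := by
      rw [Finset.sum_const, Finset.card_univ, Fintype.card_fin, smul_eq_mul]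
      have a1 : 2 * (d + 2).choose 2 = (d + 1) * (d + 2) := two_choose (d + 1)
      have a2 := two_choose a
      have a3 : S.card * (a * (a + 1)) = 2 * (S.card * (a + 1).choose 2) := by
        rw [← a2]; ring
      omega
    refine Closure.base_none d S.card (fun j => m (e j)) (Or.inl ⟨S.card, Function.Embedding.refl _,
      fun _ => a, regularAt_const ha hok, Or.inl ⟨fun j => hm _ (he j), hc⟩⟩) (hc.trans ?_)
    exact Finset.sum_le_sum fun j _ => Nat.choose_le_choose 2 (by have := hm _ (he j); omega)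

/-- A cluster, independent conditions. -/
theorem cluster_indep {N0 s : ℕ} (m : Fin s → ℕ) (S : Finset (Fin s)) {a d : ℕ} (ha : 1 ≤ a)
    (hok : S.card = 1 ∨ Ok S.card a) (hm : ∀ i ∈ S, m i ≤ a)
    (h : S.card * (a * (a + 1)) ≤ (d + 1) * (d + 2)) :
    Closure N0 Side.indep d (S.val.map m) := by
  rcases hok with hok | hok
  · obtain ⟨i, rfl⟩ := Finset.card_eq_one.1 hok
    have h1 := hm i (by simp)
    have h2 : Closure N0 Side.indep d {m i} := by
      refine Closure.single_indep d (m i) ?_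
      rw [Finset.card_singleton] at h
      by_contra hcon
      have h3 : d + 2 ≤ a := by omega
      nlinarith
    simpa using h2
  · obtain ⟨e, he, hmap⟩ := val_map_family S m
    rw [← hmap]
    have hc : ∑ _j : Fin S.card, (a + 1).choose 2 ≤ (d + 2).choose 2 := by
      rw [Finset.sum_const, Finset.card_univ, Fintype.card_fin, smul_eq_mul]
      have a1 : 2 * (d + 2).choose 2 = (d + 1) * (d + 2) := two_choose (d + 1)
      have a2 := two_choose a
      have a3 : S.card * (a * (a + 1)) = 2 * (S.card * (a + 1).choose 2) := by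
        rw [← a2]; ring
      omega
    refine Closure.base_indep d S.card (fun j => m (e j)) (Or.inl ⟨S.card,
      Function.Embedding.refl _, fun _ => a, regularAt_const ha hok,
      Or.inr ⟨fun j => hm _ (he j), fun i hi => absurd ⟨i, rfl⟩ hi, Or.inr hc⟩⟩) (le_trans ?_ hc)
    exact Finset.sum_le_sum fun j _ => Nat.choose_le_choose 2 (by have := hm _ (he j); omega)

theorem add_points {N0 d : ℕ} {M : Multiset ℕ} (h : Closure N0 Side.none d M) (R : Multiset ℕ) :
    Closure N0 Side.none d (R + M) := by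
  induction R using Multiset.induction_on with
  | empty => simpa using h
  | cons a R ih =>
    rw [Multiset.cons_add]
    exact Closure.point_none d a _ ih

/-- The uniform vector. -/
theorem uniform {N0 d k μ : ℕ} (hμ : 1 ≤ μ) (hk : Ok k μ) :
    ((d + 1) * (d + 2) ≤ k * (μ * (μ + 1)) → Closure N0 Side.none d (∑ _j : Fin k, {μ})) ∧
    (k * (μ * (μ + 1)) ≤ (d + 1) * (d + 2) → Closure N0 Side.indep d (∑ _j : Fin k, {μ})) := by
  have e : ∑ _j : Fin k, ({μ} : Multiset ℕ) = (univ : Finset (Fin k)).val.map fun _ => μ :=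
    sum_single univ fun _ => μ
  have hcard : (univ : Finset (Fin k)).card = k := by simp
  rw [e]
  refine ⟨fun h => cluster_none (fun _ => μ) univ hμ (Or.inr (by rw [hcard]; exact hk))
    (fun _ _ => le_rfl) (by rw [hcard]; exact h), fun h => cluster_indep (fun _ => μ) univ hμ
    (Or.inr (by rw [hcard]; exact hk)) (fun _ _ => le_rfl) (by rw [hcard]; exact h)⟩

/-- **Two-level clusters, no curves.** -/
theorem two_level_none {N0 s d k μ : ℕ} (m : Fin s → ℕ) (S : Fin k → Finset (Fin s))
    (a : Fin k → ℕ) (hμ : 1 ≤ μ) (hk : Ok k μ) (hdis : ∀ i j, i ≠ j → Disjoint (S i) (S j))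
    (ha : ∀ j, 1 ≤ a j) (hok : ∀ j, (S j).card = 1 ∨ Ok (S j).card (a j))
    (hm : ∀ j, ∀ i ∈ S j, a j ≤ m i) (hS : ∀ j, μ * (μ + 1) ≤ (S j).card * (a j * (a j + 1)))
    (hd : (d + 1) * (d + 2) ≤ k * (μ * (μ + 1))) :
    Closure N0 Side.none d ((univ : Finset (Fin s)).val.map m) := by
  classical
  have h1 := clusters (N0 := N0) (d := d) (fun _ : Fin k => μ) (fun j => (S j).val.map m)
    ((uniform hμ hk).1 hd) (fun _ => hμ) (fun j => cluster_none m (S j) (ha j) (hok j) (hm j)
      (by
        have h2 : μ - 1 + 1 = μ := by omega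
        have h3 : μ - 1 + 2 = μ + 1 := by omega
        rw [h2, h3]
        exact hS j))
  have h2 := add_points h1 ((univ.biUnion S)ᶜ.val.map m)
  have h3 : (univ.biUnion S)ᶜ.val.map m + ∑ j, (S j).val.map m =
      (univ : Finset (Fin s)).val.map m := by
    rw [← sum_single, ← sum_single]
    have h4 : ∑ j, (S j).val.map m = ∑ j, ∑ i ∈ S j, ({m i} : Multiset ℕ) :=
      Finset.sum_congr rfl fun j _ => (sum_single _ _).symm
    rw [h4, ← Finset.sum_biUnion fun i _ j _ hij => hdis i j hij, add_comm,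
      Finset.sum_add_sum_compl]
  rw [← h3]
  exact h2

/-- **Two-level clusters, independent conditions.** -/
theorem two_level_indep {N0 s d k μ : ℕ} (m : Fin s → ℕ) (S : Fin k → Finset (Fin s))
    (a : Fin k → ℕ) (hμ : 1 ≤ μ) (hk : Ok k μ) (hdis : ∀ i j, i ≠ j → Disjoint (S i) (S j))
    (hcov : ∀ i, ∃ j, i ∈ S j)
    (ha : ∀ j, 1 ≤ a j) (hok : ∀ j, (S j).card = 1 ∨ Ok (S j).card (a j))
    (hm : ∀ j, ∀ i ∈ S j, m i ≤ a j) (hS : ∀ j, (S j).card * (a j * (a j + 1)) ≤ μ * (μ + 1))
    (hd : k * (μ * (μ + 1)) ≤ (d + 1) * (d + 2)) :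
    Closure N0 Side.indep d ((univ : Finset (Fin s)).val.map m) := by
  classical
  have h1 := clusters (N0 := N0) (d := d) (fun _ : Fin k => μ) (fun j => (S j).val.map m)
    ((uniform hμ hk).2 hd) (fun _ => hμ) (fun j => cluster_indep m (S j) (ha j) (hok j) (hm j)
      (by
        have h2 : μ - 1 + 1 = μ := by omega
        have h3 : μ - 1 + 2 = μ + 1 := by omega
        rw [h2, h3]
        exact hS j))
  have h3 : ∑ j, (S j).val.map m = (univ : Finset (Fin s)).val.map m := by
    rw [← sum_single]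
    have h4 : ∑ j, (S j).val.map m = ∑ j, ∑ i ∈ S j, ({m i} : Multiset ℕ) :=
      Finset.sum_congr rfl fun j _ => (sum_single _ _).symm
    have h5 : univ.biUnion S = (univ : Finset (Fin s)) := by
      ext i
      obtain ⟨j, hj⟩ := hcov i
      simp only [mem_biUnion, mem_univ, true_and, iff_true]
      exact ⟨j, hj⟩
    rw [h4, ← Finset.sum_biUnion fun i _ j _ hij => hdis i j hij, h5]
  rw [← h3]
  exact h1

end Pool.Agent.V11310.CL
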