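import Mathlib
import Pool.Agent.V11263.SH.Comp

set_option autoImplicit false

/-!
# The closure of the known classes under collisions, quadratic transformations and doubling
-/

namespace Pool.Agent.V11310.CL

open Pool.Agent.Y536.SH (Standard)
open Pool.Agent.Y205.AV (Large)
open Pool.Agent.V11263.SH (Comparable Known)

/-- The reflection of the class `a = (d; w)`, `d H - ∑ w l E l`, in the class
`H - E (i 0) - E (i 1) - E (i 2)`: with `δ = d - w (i 0) - w (i 1) - w (i 2)`, the numbers
`d`, `w (i 0)`, `w (i 1)`, `w (i 2)` are increased by `δ`. -/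
def reflect {n : ℕ} (i : Fin 3 → Fin n) (a : ℤ × (Fin n → ℤ)) : ℤ × (Fin n → ℤ) :=
  (a.1 + (a.1 - a.2 (i 0) - a.2 (i 1) - a.2 (i 2)),
    fun l => a.2 l + if l = i 0 ∨ l = i 1 ∨ l = i 2 then a.1 - a.2 (i 0) - a.2 (i 1) - a.2 (i 2)
      else 0)

/-- Finitely many reflections carry `(d; w)` to `(d'; w')`. -/
def Carries {n : ℕ} (d : ℕ) (w : Fin n → ℕ) (d' : ℕ) (w' : Fin n → ℕ) : Prop :=
  Relation.ReflTransGen
    (fun a b : ℤ × (Fin n → ℤ) => ∃ i : Fin 3 → Fin n, Function.Injective i ∧ b = reflect i a)
    ((d : ℤ), fun l => (w l : ℤ)) ((d' : ℤ), fun l => (w' l : ℤ))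

/-- The classes from which we start: the comparable and the large ones, and those which finitely many
reflections carry to a standard class which is comparable, large or good. -/
def Base (N0 d : ℕ) {n : ℕ} (w : Fin n → ℕ) : Prop :=
  Comparable N0 d w ∨ Large d w ∨
    (4 ≤ n ∧ ∃ (d' : ℕ) (w' : Fin n → ℕ), Carries d w d' w' ∧ Standard d' w' ∧ Known N0 d' w')

/-- The two sides: no curves, and independent conditions. -/
inductive Side
  | none
  | indep

/-- The number of the conditions of points with the multiplicities `M`. -/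
def conditions (M : Multiset ℕ) : ℕ := (M.map fun μ => (μ + 1).choose 2).sum

/-- `Closure N0 s d M`, for a degree `d` and a multiset `M` of multiplicities of points of the plane:
the smallest class with the following properties.

* `base`: it contains the classes `(d; w)` of `Base`, on the side `none` if
  `(d + 2).choose 2 ≤ ∑ (w i + 1).choose 2`, on the side `indep` if
  `∑ (w i + 1).choose 2 ≤ (d + 2).choose 2`;
* `single`: one point of multiplicity `μ > d` is on the side `none`, one point of multiplicity
  `μ ≤ d + 1` on the side `indep`;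
* `point`, `degree`: the side `none` is closed under adding points and decreasing the degree, the
  side `indep` under removing points and increasing the degree;
* `collision`: if `{μ} + M` is in it in degree `d` and `M'` in degree `μ - 1` (`μ ≥ 1` on the side
  `indep`), on the same side, then so is `M' + M` in degree `d`;
* `quadratic`: if `a + b, a + c, b + c ≤ d` and the class
  `{d - b - c, d - a - c, d - a - b} + M` in degree `2 d - a - b - c` is in it, then so is
  `{a, b, c} + M` in degree `d`, on the same side;
* `doubling`: if `N ≥ 1` points of multiplicity `2 m` and `M` are independent in degree `d` and there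
  are no curves of degree `d` for `N` points of multiplicity `2 m + 1` and `M`, then `4 N` points of
  multiplicity `m` and `M` are on the side given by the sign of
  `(d + 2).choose 2 - conditions`. -/
inductive Closure (N0 : ℕ) : Side → ℕ → Multiset ℕ → Prop
  | base_none (d n : ℕ) (w : Fin n → ℕ) (h : Base N0 d w)
      (hχ : (d + 2).choose 2 ≤ ∑ i, (w i + 1).choose 2) :
      Closure N0 Side.none d ((Finset.univ : Finset (Fin n)).val.map w)
  | base_indep (d n : ℕ) (w : Fin n → ℕ) (h : Base N0 d w)
      (hχ : ∑ i, (w i + 1).choose 2 ≤ (d + 2).choose 2) :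
      Closure N0 Side.indep d ((Finset.univ : Finset (Fin n)).val.map w)
  | single_none (d μ : ℕ) (h : d < μ) : Closure N0 Side.none d {μ}
  | single_indep (d μ : ℕ) (h : μ ≤ d + 1) : Closure N0 Side.indep d {μ}
  | point_none (d μ : ℕ) (M : Multiset ℕ) (h : Closure N0 Side.none d M) :
      Closure N0 Side.none d (μ ::ₘ M)
  | point_indep (d μ : ℕ) (M : Multiset ℕ) (h : Closure N0 Side.indep d (μ ::ₘ M)) :
      Closure N0 Side.indep d M
  | degree_none (d d' : ℕ) (M : Multiset ℕ) (hd : d' ≤ d) (h : Closure N0 Side.none d M) :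
      Closure N0 Side.none d' M
  | degree_indep (d d' : ℕ) (M : Multiset ℕ) (hd : d ≤ d') (h : Closure N0 Side.indep d M) :
      Closure N0 Side.indep d' M
  | collision_none (d μ : ℕ) (M M' : Multiset ℕ) (h : Closure N0 Side.none d (μ ::ₘ M))
      (h' : Closure N0 Side.none (μ - 1) M') : Closure N0 Side.none d (M' + M)
  | collision_indep (d μ : ℕ) (M M' : Multiset ℕ) (hμ : 1 ≤ μ)
      (h : Closure N0 Side.indep d (μ ::ₘ M)) (h' : Closure N0 Side.indep (μ - 1) M') :
      Closure N0 Side.indep d (M' + M)
  | quadratic (s : Side) (d a b c : ℕ) (M : Multiset ℕ) (hab : a + b ≤ d) (hac : a + c ≤ d)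
      (hbc : b + c ≤ d) (h : Closure N0 s (2 * d - (a + b + c))
        ((d - (b + c)) ::ₘ (d - (a + c)) ::ₘ (d - (a + b)) ::ₘ M)) :
      Closure N0 s d (a ::ₘ b ::ₘ c ::ₘ M)
  | doubling_none (d N m : ℕ) (M : Multiset ℕ) (hN : 1 ≤ N)
      (h1 : Closure N0 Side.indep d (Multiset.replicate N (2 * m) + M))
      (h2 : Closure N0 Side.none d (Multiset.replicate N (2 * m + 1) + M))
      (hχ : (d + 2).choose 2 ≤ conditions (Multiset.replicate (4 * N) m + M)) :
      Closure N0 Side.none d (Multiset.replicate (4 * N) m + M)
  | doubling_indep (d N m : ℕ) (M : Multiset ℕ) (hN : 1 ≤ N)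
      (h1 : Closure N0 Side.indep d (Multiset.replicate N (2 * m) + M))
      (h2 : Closure N0 Side.none d (Multiset.replicate N (2 * m + 1) + M))
      (hχ : conditions (Multiset.replicate (4 * N) m + M) ≤ (d + 2).choose 2) :
      Closure N0 Side.indep d (Multiset.replicate (4 * N) m + M)

/-- The class `(d; w)` is reached: it belongs to the closure, on one of the sides. -/
def Reached (N0 d : ℕ) {n : ℕ} (w : Fin n → ℕ) : Prop :=
  Closure N0 Side.none d ((Finset.univ : Finset (Fin n)).val.map w) ∨
    Closure N0 Side.indep d ((Finset.univ : Finset (Fin n)).val.map w)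

end Pool.Agent.V11310.CL
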