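import Pool.Agent.V11310.CL.Defs
import Pool.Agent.V11310.CL.Torus

set_option autoImplicit false

/-!
# The classes of the closure have the expected dimension
-/

namespace Pool.Agent.V11310.CL

open MvPolynomial Finset
open Pool.Agent.TH167.SH (cd PS chi)
open Pool.Agent.W609.CR (wcr)

theorem base_ge {N0 : ℕ} (hN0 : Pool.Agent.Y939.NC.RegExp N0) {n d : ℕ} {w : Fin n → ℕ}
    (h : Base N0 d w) : GE d w := by
  rcases h with h | h | ⟨hn, d', w', hc, hs, hG⟩
  · intro K _ _ P hP
    exact Pool.Agent.V11263.SH.comparable_exp hN0 h hP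
  · intro K _ _ P hP
    exact Pool.Agent.Y205.AV.large_exp h hP
  · intro K _ _ P hP
    exact Pool.Agent.TH442.NF.up_enef hP hc (Pool.Agent.TH442.NF.enef_of_std hn P hs)
      (Pool.Agent.V11263.SH.known_exp hN0 hn hs hG hP)

theorem conditions_ms {n : ℕ} (w : Fin n → ℕ) : conditions (ms w) = ∑ i, (w i + 1).choose 2 := by
  unfold conditions ms
  rw [Multiset.map_map]
  rfl

theorem conditions_map {n : ℕ} (w : Fin n → ℕ) :
    conditions ((univ : Finset (Fin n)).val.map w) = ∑ i, (w i + 1).choose 2 :=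
  conditions_ms w

/-- What the two sides mean. -/
def Means (s : Side) (d : ℕ) (M : Multiset ℕ) : Prop :=
  match s with
  | Side.none => Y55.Col.Emp 2 (d + 1) M
  | Side.indep => Y55.Col.Ind 1 (d + 1) M

theorem means_iff {s : Side} {n d : ℕ} {w : Fin n → ℕ} :
    Means s d (ms w) ↔ GE d w ∧ match s with
      | Side.none => (d + 2).choose 2 ≤ ∑ i, (w i + 1).choose 2
      | Side.indep => ∑ i, (w i + 1).choose 2 ≤ (d + 2).choose 2 := by
  cases s with
  | none => exact ⟨fun h => ge_of_emp h, fun h => emp_of_ge h.1 h.2⟩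
  | indep => exact ⟨fun h => ge_of_ind h, fun h => ind_of_ge h.1 h.2⟩

theorem ms_cons {k : ℕ} (a : ℕ) (m : Fin k → ℕ) :
    ms (Fin.cons a m : Fin (k + 1) → ℕ) = a ::ₘ ms m := by
  unfold ms
  rw [Fin.univ_succ, Finset.cons_val, Multiset.map_cons, Finset.map_val, Multiset.map_map]
  rfl

theorem means_quadratic {s : Side} {d a b c : ℕ} {M : Multiset ℕ} (hab : a + b ≤ d)
    (hac : a + c ≤ d) (hbc : b + c ≤ d)
    (h : Means s (2 * d - (a + b + c)) ((d - (b + c)) ::ₘ (d - (a + c)) ::ₘ (d - (a + b)) ::ₘ M)) :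
    Means s d (a ::ₘ b ::ₘ c ::ₘ M) := by
  obtain ⟨k, m, rfl⟩ := Y55.Col.exists_family M
  obtain ⟨w, hw⟩ : ∃ w : Fin (k + 3) → ℕ, w = Fin.cons a (Fin.cons b (Fin.cons c m)) := ⟨_, rfl⟩
  obtain ⟨w', hw'⟩ : ∃ w' : Fin (k + 3) → ℕ,
      w' = Fin.cons (d - (b + c)) (Fin.cons (d - (a + c)) (Fin.cons (d - (a + b)) m)) := ⟨_, rfl⟩
  have e1 : a ::ₘ b ::ₘ c ::ₘ (univ : Finset (Fin k)).val.map m = ms w := by
    rw [hw, ms_cons, ms_cons, ms_cons]
    rfl
  have e2 : (d - (b + c)) ::ₘ (d - (a + c)) ::ₘ (d - (a + b)) ::ₘ (univ : Finset (Fin k)).val.map m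
      = ms w' := by
    rw [hw', ms_cons, ms_cons, ms_cons]
    rfl
  rw [e1]
  rw [e2] at h
  obtain ⟨i, hi⟩ : ∃ i : Fin 3 → Fin (k + 3), i = Fin.castLE (by omega) := ⟨_, rfl⟩
  have hinj : Function.Injective i := by rw [hi]; exact Fin.castLE_injective _
  have i0 : i 0 = 0 := by rw [hi]; rfl
  have i1 : i 1 = 1 := by rw [hi]; rfl
  have i2 : i 2 = 2 := by rw [hi]; rfl
  have w0 : w (i 0) = a := by rw [hw, i0]; rfl
  have w1 : w (i 1) = b := by rw [hw, i1]; rfl
  have w2 : w (i 2) = c := by rw [hw, i2]; rfl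
  have p : PS i d w := ⟨by rw [w0, w1]; exact hab, by rw [w0, w2]; exact hac,
    by rw [w1, w2]; exact hbc⟩
  have hcd : cd i d w = 2 * d - (a + b + c) := by
    unfold Pool.Agent.TH167.SH.cd
    rw [w0, w1, w2]
  have hwc : wcr d i w = w' := by
    funext j
    unfold Pool.Agent.W609.CR.wcr
    rw [w0, w1, w2, i0, i1, i2, hw', hw]
    refine Fin.cases ?_ (fun j => ?_) j
    · rfl
    refine Fin.cases ?_ (fun j => ?_) j
    · rfl
    refine Fin.cases ?_ (fun j => ?_) j
    · rfl
    have n0 : (j.succ.succ.succ : Fin (k + 3)) ≠ 0 := Fin.succ_ne_zero _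
    have n1 : (j.succ.succ.succ : Fin (k + 3)) ≠ 1 := by
      intro h
      have := congrArg Fin.val h
      simp at this
    have n2 : (j.succ.succ.succ : Fin (k + 3)) ≠ 2 := by
      intro h
      have h2 := congrArg Fin.val h
      simp at h2
      rw [Nat.mod_eq_of_lt (by omega)] at h2
      omega
    rw [if_neg n0, if_neg n1, if_neg n2]
    rfl
  rw [means_iff] at h ⊢
  rw [← hcd, ← hwc] at h
  refine ⟨ge_quad hinj p h.1, ?_⟩
  have hchi := chi_quad hinj p
  rw [chi_eq, chi_eq] at hchi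
  cases s with
  | none =>
    have h2 : (cd i d w + 2).choose 2 ≤ ∑ l, (wcr d i w l + 1).choose 2 := h.2
    show (d + 2).choose 2 ≤ ∑ l, (w l + 1).choose 2
    zify at h2 ⊢
    push_cast at hchi
    linarith
  | indep =>
    have h2 : ∑ l, (wcr d i w l + 1).choose 2 ≤ (cd i d w + 2).choose 2 := h.2
    show ∑ l, (w l + 1).choose 2 ≤ (d + 2).choose 2
    zify at h2 ⊢
    push_cast at hchi
    linarith

theorem closure_means {N0 : ℕ} (hN0 : Pool.Agent.Y939.NC.RegExp N0) {s : Side} {d : ℕ}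
    {M : Multiset ℕ} (h : Closure N0 s d M) : Means s d M := by
  induction h with
  | base_none d n w h hχ => exact emp_of_ge (base_ge hN0 h) hχ
  | base_indep d n w h hχ => exact ind_of_ge (base_ge hN0 h) hχ
  | single_none d μ h =>
    -- one point of large multiplicity
    refine ⟨Unit, inferInstance, fun _ => μ, fun _ _ => 0, by simp, ?_⟩
    intro F hF hv
    have h2 : d + 1 ≤ μ := h
    exact Y55.Col.one h2 _ hF (hv ())
  | single_indep d μ h => exact Y55.Col.ind_one h
  | point_none d μ M h ih => exact Y55.Col.Emp.point ih μ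
  | point_indep d μ M h ih => exact Y55.Col.Ind.remove ih
  | degree_none d d' M hd h ih => exact Y55.Col.Emp.mono ih (by omega)
  | degree_indep d d' M hd h ih => exact Y55.Col.Ind.degree ih (by omega)
  | collision_none d μ M M' h h' ih ih' =>
    exact Y55.Col.Emp.collision ih (Y55.Col.Emp.mono ih' (by omega))
  | collision_indep d μ M M' hμ h h' ih ih' =>
    refine Y55.Col.Ind.collision ih ?_
    have h2 : Y55.Col.Ind 1 (μ - 1 + 1) M' := ih'
    rwa [Nat.sub_add_cancel hμ] at h2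
  | quadratic s d a b c M hab hac hbc h ih => exact means_quadratic hab hac hbc ih
  | doubling_none d N m M hN h1 h2 hχ ih1 ih2 =>
    obtain ⟨n, v, hv⟩ := Y55.Col.exists_family (Multiset.replicate (4 * N) m + M)
    have h3 : GE d v := ge_doubling (by omega) ih1 ih2 hv
    rw [← hv] at hχ ⊢
    rw [conditions_map] at hχ
    exact emp_of_ge h3 hχ
  | doubling_indep d N m M hN h1 h2 hχ ih1 ih2 =>
    obtain ⟨n, v, hv⟩ := Y55.Col.exists_family (Multiset.replicate (4 * N) m + M)
    have h3 : GE d v := ge_doubling (by omega) ih1 ih2 hv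
    rw [← hv] at hχ ⊢
    rw [conditions_map] at hχ
    exact ind_of_ge h3 hχ

/-- **The classes of the closure have the expected dimension at generic points.** -/
theorem reached_exp {N0 : ℕ} (hN0 : Pool.Agent.Y939.NC.RegExp N0) {n d : ℕ} {w : Fin n → ℕ}
    (h : Reached N0 d w) {K : Type} [Field K] [CharZero K] {P : Fin n → Fin 2 → K}
    (hP : AlgebraicIndependent ℚ (fun ij : Fin n × Fin 2 => P ij.1 ij.2)) :
    Pool.Agent.H932R3.ExpDim K w P d := by
  rcases h with h | h
  · exact (ge_of_emp (closure_means hN0 h)).1 hP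
  · exact (ge_of_ind (closure_means hN0 h)).1 hP

end Pool.Agent.V11310.CL
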